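import Pool.Agent.H.MP_dd1f31_an.C

set_option autoImplicit false

namespace Pool.Agent.Results.MP_5e2fde_an.Three

theorem result (s : ℝ) (hs : 0 < s) :
    ∃ p : ℕ → Polynomial ℝ,
      (∀ n, ∀ z : ℂ, Polynomial.aeval z (p n) = 0 → z.im = 0) ∧
      TendstoLocallyUniformly (fun n (z : ℂ) => Polynomial.aeval z (p n))
        (fun z : ℂ => ∑' k : ℕ, (((k : ℝ) ^ s / (Nat.factorial k : ℝ) ^ 3 : ℝ) : ℂ) * z ^ k) Filter.atTop :=
  Pool.Agent.H.MP_dd1f31_an.cube hs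

end Pool.Agent.Results.MP_5e2fde_an.Three
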